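import Pool.Agent.H26.Lib.R_seed8.W353.NF.Ineq

/-! Burnside's lemma, derangements, and the transitivity of the action on the embeddings. -/

set_option autoImplicit false

namespace Pool.Agent.W353.NF

open Complex Filter Topology ComplexConjugate NumberField IsDedekindDomain
  Pool.Agent.W401.Cheb

/-- Burnside's lemma for a transitive action. -/
theorem burnside {G Y : Type*} [Group G] [Finite G] [Finite Y] [Nonempty Y]
    (a : G →* Equiv.Perm Y) (ht : ∀ x y, ∃ g, a g x = y) :
    ∑ᶠ g : G, ((Nat.card {y // a g y = y} : ℕ) : ℝ) = Nat.card G := by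
  classical
  let _ : Fintype G := Fintype.ofFinite G
  let _ : Fintype Y := Fintype.ofFinite Y
  let _ : MulAction G Y := MulAction.compHom Y a
  have hsm : ∀ (g : G) (y : Y), g • y = a g y := fun g y => rfl
  have hpre : MulAction.IsPretransitive G Y := ⟨ht⟩
  have hone : Subsingleton (Quotient (MulAction.orbitRel G Y)) :=
    (MulAction.pretransitive_iff_subsingleton_quotient G Y).1 hpre
  let _ : Fintype (Quotient (MulAction.orbitRel G Y)) := Fintype.ofFinite _
  have hne : Nonempty (Quotient (MulAction.orbitRel G Y)) := ⟨Quotient.mk _ (Classical.arbitrary Y)⟩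
  have h1 := MulAction.sum_card_fixedBy_eq_card_orbits_mul_card_group G Y
  have h2 : Fintype.card (Quotient (MulAction.orbitRel G Y)) = 1 := by
    rw [Fintype.card_eq_one_iff]
    exact ⟨hne.some, fun y => Subsingleton.elim _ _⟩
  rw [h2, one_mul] at h1
  rw [finsum_eq_sum_of_fintype, Nat.card_eq_fintype_card, ← h1, Nat.cast_sum]
  refine Finset.sum_congr rfl fun g _ => ?_
  rw [Nat.card_eq_fintype_card]
  congr 1

section
variable (K F : Type) [Field K] [NumberField K] [Field F] [NumberField F] [Algebra K F]

/-- the action on the embeddings is transitive -/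
theorem act_trans (i j : F →ₐ[K] AlgebraicClosure K) : ∃ σ : GK K, act K F σ i = j := by
  let _ : Algebra F (AlgebraicClosure K) := (i : F →+* AlgebraicClosure K).toAlgebra
  have : IsScalarTower K F (AlgebraicClosure K) := IsScalarTower.of_algHom i
  have hal : Algebra.IsAlgebraic F (AlgebraicClosure K) :=
    Algebra.IsAlgebraic.tower_top (K := K) F
  obtain ⟨f, hf⟩ := IsAlgClosed.surjective_domRestrict_of_isAlgebraic (K := K) (L := F)
    (E := AlgebraicClosure K) (M := AlgebraicClosure K) j
  refine ⟨AlgEquiv.ofBijective f (Algebra.IsAlgebraic.algHom_bijective f), ?_⟩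
  rw [act_apply]
  refine AlgHom.ext fun x => ?_
  exact DFunLike.congr_fun hf x

instance : Nonempty (F →ₐ[K] AlgebraicClosure K) := ⟨IsAlgClosed.lift⟩

end

/-- the mean value of `|fix - 1|` is twice the proportion of the derangements -/
theorem mean_fix_sub {G Y : Type*} [Group G] [Finite G] [Finite Y] [Nonempty Y]
    (a : G →* Equiv.Perm Y) (ht : ∀ x y, ∃ g, a g x = y) :
    (Nat.card G : ℝ)⁻¹ * ∑ᶠ g : G, |((Nat.card {y // a g y = y} : ℕ) : ℝ) - 1| =
      2 * ((Nat.card {g : G // ∀ y, a g y ≠ y} : ℝ) / Nat.card G) := by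
  classical
  let _ : Fintype G := Fintype.ofFinite G
  have h1 := burnside a ht
  have h0 : (Nat.card G : ℝ) ≠ 0 := by exact_mod_cast Nat.card_pos.ne'
  rw [finsum_eq_sum_of_fintype] at h1 ⊢
  have h2 : ∀ g : G, |((Nat.card {y // a g y = y} : ℕ) : ℝ) - 1| =
      ((Nat.card {y // a g y = y} : ℕ) : ℝ) - 1 + 2 * (if ∀ y, a g y ≠ y then 1 else 0) := by
    intro g
    by_cases h : ∀ y, a g y ≠ y
    · rw [if_pos h]
      have : IsEmpty {y // a g y = y} := ⟨fun y => h y.1 y.2⟩
      rw [Nat.card_of_isEmpty]
      norm_num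
    · rw [if_neg h]
      push Not at h
      obtain ⟨y, hy⟩ := h
      have : Nonempty {y // a g y = y} := ⟨⟨y, hy⟩⟩
      have h3 : 1 ≤ Nat.card {y // a g y = y} := Nat.card_pos
      have h4 : (1 : ℝ) ≤ ((Nat.card {y // a g y = y} : ℕ) : ℝ) := by exact_mod_cast h3
      rw [abs_of_nonneg (by linarith)]
      ring
  rw [Finset.sum_congr rfl fun g _ => h2 g, Finset.sum_add_distrib, Finset.sum_sub_distrib, h1,
    ← Finset.mul_sum, Finset.sum_boole, Finset.sum_const, Finset.card_univ, nsmul_eq_mul, mul_one,
    ← Nat.card_eq_fintype_card, sub_self, zero_add, Nat.card_eq_fintype_card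
      (α := {g : G // ∀ y, a g y ≠ y}), Fintype.card_subtype]
  rw [inv_mul_eq_div, mul_div_assoc]

/-- bound for the number of derangements -/
theorem numDerangements_le {n : ℕ} (hn : 3 ≤ n) : 8 * numDerangements n ≤ 3 * n.factorial := by
  have h5 : ∀ m : ℕ, 8 * numDerangements (m + 5) + 8 ≤ 3 * (m + 5).factorial := by
    intro m
    induction m with
    | zero => decide
    | succ m ih =>
      have h1 := numDerangements_succ (m + 5)
      have h2 : (m + 5 + 1).factorial = (m + 5 + 1) * (m + 5).factorial := Nat.factorial_succ _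
      have h3 : m + 1 + 5 = m + 5 + 1 := by ring
      rw [h3, h2]
      have h4 : -((-1 : ℤ) ^ (m + 5)) ≤ 1 := by
        rcases neg_one_pow_eq_or ℤ (m + 5) with h | h <;> rw [h] <;> norm_num
      have ih' : (8 : ℤ) * numDerangements (m + 5) + 8 ≤ 3 * ((m + 5).factorial : ℤ) := by
        exact_mod_cast ih
      have h6 : (8 : ℤ) * numDerangements (m + 5 + 1) + 8 ≤
          3 * ((m + 5 + 1 : ℕ) * (m + 5).factorial : ℤ) := by
        rw [h1]
        push_cast
        nlinarith
      exact_mod_cast h6
  rcases Nat.lt_or_ge n 5 with h | h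
  · interval_cases n <;> decide
  · obtain ⟨m, rfl⟩ := Nat.exists_eq_add_of_le h
    have := h5 m
    rw [add_comm 5 m]
    omega

/-- the proportion of the derangements if all permutations occur -/
theorem derangement_prop {G Y : Type*} [Group G] [Finite G] [Finite Y]
    (a : G →* Equiv.Perm Y) (hs : Function.Surjective a) (hn : 3 ≤ Nat.card Y) :
    (Nat.card {g : G // ∀ y, a g y ≠ y} : ℝ) / Nat.card G ≤ 3 / 8 := by
  classical
  let _ : Fintype G := Fintype.ofFinite G
  let _ : Fintype Y := Fintype.ofFinite Y
  have hker : ∀ π : Equiv.Perm Y, Nat.card {g : G // a g = π} = Nat.card a.ker := by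
    intro π
    obtain ⟨g0, hg0⟩ := hs π
    refine Nat.card_congr
      { toFun := fun g => ⟨g0⁻¹ * g.1, by
          rw [MonoidHom.mem_ker, map_mul, map_inv, hg0, g.2, inv_mul_cancel]⟩
        invFun := fun k => ⟨g0 * k.1, by
          rw [map_mul, hg0, (MonoidHom.mem_ker).1 k.2, mul_one]⟩
        left_inv := fun g => Subtype.ext (by simp)
        right_inv := fun k => Subtype.ext (by simp) }
  have h1 : Nat.card {g : G // ∀ y, a g y ≠ y} =
      Nat.card (derangements Y) * Nat.card a.ker := by
    rw [← Nat.card_prod]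
    have e : {g : G // ∀ y, a g y ≠ y} ≃ Σ π : derangements Y, {g : G // a g = π.1} :=
      { toFun := fun g => ⟨⟨a g.1, g.2⟩, ⟨g.1, rfl⟩⟩
        invFun := fun x => ⟨x.2.1, by
          intro y
          rw [x.2.2]
          exact x.1.2 y⟩
        left_inv := fun g => rfl
        right_inv := fun x => by
          rcases x with ⟨⟨π, hπ⟩, ⟨g, hg⟩⟩
          have hg' : a g = π := hg
          subst hg'
          rfl }
    rw [Nat.card_congr e, Nat.card_sigma, Finset.sum_congr rfl fun π _ => hker π.1,
      Finset.sum_const, Finset.card_univ, smul_eq_mul, Nat.card_prod, Nat.card_eq_fintype_card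
      (α := derangements Y)]
  have h2 : Nat.card G = (Nat.card Y).factorial * Nat.card a.ker := by
    have e : G ≃ Σ π : Equiv.Perm Y, {g : G // a g = π} :=
      { toFun := fun g => ⟨a g, ⟨g, rfl⟩⟩
        invFun := fun x => x.2.1
        left_inv := fun g => rfl
        right_inv := fun x => by
          rcases x with ⟨π, ⟨g, hg⟩⟩
          subst hg
          rfl }
    rw [Nat.card_congr e, Nat.card_sigma, Finset.sum_congr rfl fun π _ => hker π,
      Finset.sum_const, Finset.card_univ, smul_eq_mul, Fintype.card_perm,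
      Nat.card_eq_fintype_card (α := Y)]
  have h3 : Nat.card (derangements Y) = numDerangements (Nat.card Y) := by
    rw [Nat.card_eq_fintype_card, card_derangements_eq_numDerangements, Nat.card_eq_fintype_card]
  have h4 := numDerangements_le hn
  have hk : 0 < Nat.card a.ker := Nat.card_pos
  have hpos : (0 : ℝ) < Nat.card G := by exact_mod_cast Nat.card_pos
  rw [div_le_div_iff₀ hpos (by norm_num), h1, h2, h3]
  have h5 : numDerangements (Nat.card Y) * Nat.card a.ker * 8 ≤
      3 * ((Nat.card Y).factorial * Nat.card a.ker) := by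
    nlinarith
  exact_mod_cast h5

end Pool.Agent.W353.NF
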