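import Pool.Agent.H26.Lib.R_seed8.W353.NF.Pair
import Pool.Agent.H26.Lib.R_seed8.W353.AB.EC

/-! The sizes of an elliptic curve over number fields. -/

set_option autoImplicit false

namespace Pool.Agent.W353.NF

open Complex Filter Topology ComplexConjugate NumberField IsDedekindDomain Asymptotics
  Pool.Agent.W401.Cheb Pool.Agent.W540.BE Pool.Agent.W353.L1
open Pool.Agent.W353.TP (HX sysH LL)
open Pool.Agent.W353.AB (Sy syE tEH csH LE size_E)
open Pool.Agent.H341R2 (lam)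
open Pool.Agent.H341R2.EC (twist IsModel IsMinAt)

section
variable {K : Type} [Field K] [NumberField K]

/-- the variable change to the short form -/
noncomputable def cShort (E : WeierstrassCurve K) : WeierstrassCurve.VariableChange K where
  u := Units.mk0 (1 / 6 : K) (by norm_num)
  r := -E.b₂ / 12
  s := -E.a₁ / 2
  t := -(E.a₃ + (-E.b₂ / 12) * E.a₁) / 2

theorem twist_one (E : WeierstrassCurve K) : twist E 1 = cShort E • E := by
  have h2 : (2 : K) ≠ 0 := by norm_num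
  have h12 : (12 : K) ≠ 0 := by norm_num
  have hu : (((Units.mk0 (1 / 6 : K) (by norm_num))⁻¹ : Kˣ) : K) = 6 := by
    rw [Units.val_inv_eq_inv_val, Units.val_mk0]
    norm_num
  have e0 : (cShort E).u = Units.mk0 (1 / 6 : K) (by norm_num) := rfl
  ext
  · rw [WeierstrassCurve.variableChange_a₁, e0, hu]
    simp only [twist, cShort]
    ring
  · rw [WeierstrassCurve.variableChange_a₂, e0, hu]
    simp only [twist, cShort, WeierstrassCurve.b₂]
    ring
  · rw [WeierstrassCurve.variableChange_a₃, e0, hu]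
    simp only [twist, cShort, WeierstrassCurve.b₂]
    ring
  · rw [WeierstrassCurve.variableChange_a₄, e0, hu]
    simp only [twist, cShort, WeierstrassCurve.b₂, WeierstrassCurve.b₄, WeierstrassCurve.c₄]
    ring
  · rw [WeierstrassCurve.variableChange_a₆, e0, hu]
    simp only [twist, cShort, WeierstrassCurve.b₂, WeierstrassCurve.b₄, WeierstrassCurve.b₆,
      WeierstrassCurve.c₆]
    ring

theorem isModel_smul (E : WeierstrassCurve K) (C₀ : WeierstrassCurve.VariableChange K)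
    (V : WeierstrassCurve (𝓞 K)) : IsModel (C₀ • E) V ↔ IsModel E V := by
  constructor
  · rintro ⟨C, hC⟩
    exact ⟨C * C₀, by rw [← hC, mul_smul]⟩
  · rintro ⟨C, hC⟩
    exact ⟨C * C₀⁻¹, by rw [mul_smul, inv_smul_smul, hC]⟩

theorem isMinAt_one (E : WeierstrassCurve K) (v : HeightOneSpectrum (𝓞 K))
    (V : WeierstrassCurve (𝓞 K)) (h : IsMinAt E v V) : IsMinAt (twist E 1) v V := by
  rw [twist_one]
  refine ⟨(isModel_smul E _ V).2 h.1, fun W hW => ?_⟩
  exact h.2 W ((isModel_smul E _ W).1 hW)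

theorem tEH_im (P Q : 𝓞 K) (x : HX K) : (tEH P Q x).im = 0 := by
  unfold tEH
  split_ifs with h
  · have e : -(csH P Q x : ℂ) * ((Real.sqrt (x.1 : ℕ) : ℝ) : ℂ)⁻¹ =
        ((-(csH P Q x : ℝ) * (Real.sqrt (x.1 : ℕ))⁻¹ : ℝ) : ℂ) := by
      push_cast
      rfl
    rw [e, Complex.ofReal_im]
  · rfl

theorem syE_real (P Q : 𝓞 K) : ∀ j ∈ (syE P Q).P, ∀ x, ((syE P Q).T j x).im = 0 :=
  fun _ _ x => tEH_im P Q x

theorem syE_b (P Q : 𝓞 K) : ∑ j ∈ (syE P Q).P, (syE P Q).b j = 2 := by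
  have e1 : ∑ j ∈ (syE P Q).P, (syE P Q).b j = ∑ _j ∈ ({()} : Finset Unit), (2 : ℝ) := rfl
  rw [e1, Finset.sum_singleton]

variable {F : Type} [Field F] [NumberField F] [Algebra K F]

/-- the sizes over `F` -/
theorem size_EF (E : WeierstrassCurve K) {l P Q : 𝓞 K} (hl : l ≠ 0)
    (hP : (P : K) = (l : K) ^ 4 * E.c₄) (hQ : (Q : K) = (l : K) ^ 6 * E.c₆)
    (hD : P ^ 3 - Q ^ 2 ≠ 0)
    (M : HeightOneSpectrum (𝓞 F) → WeierstrassCurve (𝓞 F))
    (hM : ∀ v, IsMinAt (E.map (algebraMap K F)) v (M v)) (τ : ℝ) :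
    (∀ᶠ ε : ℝ in 𝓝[>] 0, LE M (3 / 2 + τ * I + ε) ≠ 0) ∧
    (syE P Q).IsSize (F := F) (fun _ => 1) τ
      (fun ε => Real.log ‖LE M (3 / 2 + τ * I + ε)‖ / Real.log (1 / ε)) := by
  have h1 : ((1 : 𝓞 F) : F) = 1 := map_one (algebraMap (𝓞 F) F)
  exact size_E E hl hP hQ hD (d := (1 : 𝓞 F)) one_ne_zero M (fun v => by
    rw [h1]
    exact isMinAt_one _ v (M v) (hM v)) τ

/-- limits of the sizes -/
theorem lim_order {L : ℂ → ℂ} {τ : ℝ} (hL : ∀ᶠ ε : ℝ in 𝓝[>] 0, L (3 / 2 + τ * I + ε) ≠ 0)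
    {Λ : ℂ → ℂ} (h1 : MeromorphicAt Λ (3 / 2 + τ * I))
    (h2 : ∀ᶠ s in 𝓝 ((3 / 2 : ℂ) + τ * I), (3 / 2 : ℝ) < s.re → Λ s = L s) {m : ℤ}
    (hm : meromorphicOrderAt Λ (3 / 2 + τ * I) = m) :
    Tendsto (fun ε : ℝ => Real.log ‖L (3 / 2 + τ * I + ε)‖ / Real.log (1 / ε)) (𝓝[>] 0)
      (𝓝 (-(m : ℝ))) := by
  obtain ⟨m', h3', h4⟩ := Pool.Agent.H126T.order_limit h1
    (fun ε : ℝ => L (3 / 2 + τ * I + ε)) hL (by
      filter_upwards [(Pool.Agent.H341R2.path_tendsto' (3 / 2 + τ * I)).eventually h2,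
        self_mem_nhdsWithin] with ε h1 h2
      have hε : (0 : ℝ) < ε := h2
      exact h1 (by simp; linarith))
  rw [hm] at h3'
  have h5 : m = m' := by exact_mod_cast h3'
  subst h5
  exact h4

end

end Pool.Agent.W353.NF
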