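import Pool.Agent.H26.Lib.R_seed8.W353.NF.Corr

/-! The inequality for the sizes over several number fields at one height. -/

set_option autoImplicit false

namespace Pool.Agent.W353.NF

open Complex Filter Topology ComplexConjugate NumberField IsDedekindDomain Asymptotics
  Pool.Agent.W401.Cheb Pool.Agent.W540.BE Pool.Agent.W353.L1
open Pool.Agent.W353.TP (HX sysH push push_abs_le qh qh_abs qh_eq res LL LL_tendsto E_H bdd_isLittleO
  lam0_sub)
open Pool.Agent.W353.AB (Sy vq)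
open Pool.Agent.H341R2 (lam lam_tendsto sysK)

section
variable {K : Type} [Field K] [NumberField K]

/-- the constant for the height `τ` -/
noncomputable def kap (τ : ℝ) : ℝ := by
  classical
  exact if τ = 0 then 1 else 2 / Real.pi

theorem kap_pos (τ : ℝ) : 0 < kap τ := by
  classical
  unfold kap
  have := Real.pi_pos
  split_ifs
  · norm_num
  · positivity

/-- mean values of the absolute value of a real class function -/
theorem real_mean (U : Subgroup (GK K)) [U.Normal] (hU : IsOpen (U : Set (GK K)))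
    [Finite (GK K ⧸ U)] (ψ : GK K → ℝ)
    (hψU : ∀ σ, ∀ u ∈ U, ψ (σ * u) = ψ σ) (hc : ∀ σ ρ, ψ (ρ * σ * ρ⁻¹) = ψ σ)
    (hi : ∀ σ, ψ σ⁻¹ = ψ σ) (σ : HeightOneSpectrum (𝓞 K) → GK K) (hσ : ∀ v, IsFrob v (σ v))
    (τ : ℝ) :
    Tendsto (fun ε : ℝ => (EP (nm K) ε fun v => |ψ (σ v) * cz τ v|) / lam ε) (𝓝[>] 0)
      (𝓝 (kap τ * avR U fun q => |ψ q.out|)) := by
  classical
  set A := toCF U ψ hψU hc hi with hA
  have e1 : ∀ v, |(A.f (QuotientGroup.mk (σ v)) * zz τ v).re| = |ψ (σ v) * cz τ v| := by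
    intro v
    rw [hA, toCF_mk, Complex.re_ofReal_mul]
    rfl
  have e2 : ∀ q, A.f q = ((ψ q.out : ℝ) : ℂ) := fun q => rfl
  by_cases h : τ = 0
  · subst h
    have h1 := equi_zero U hU A.f A.cls σ hσ
    simp only [e1] at h1
    simp only [e2, Complex.ofReal_re] at h1
    unfold kap
    rw [if_pos rfl, one_mul]
    exact h1
  · have h1 := equi U hU A.f A.cls A.herm σ hσ h
    simp only [e1] at h1
    simp only [e2, Complex.norm_real, Real.norm_eq_abs] at h1
    unfold kap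
    rw [if_neg h]
    exact h1

/-- **The inequality at one height.** -/
theorem ineq1 (𝒮 : Sy K) (hreal : ∀ j ∈ 𝒮.P, ∀ x, (𝒮.T j x).im = 0)
    (U : Subgroup (GK K)) [U.Normal] (hU : IsOpen (U : Set (GK K))) [Finite (GK K ⧸ U)]
    {κ : Type*} (S : Finset κ) (F : κ → Type) [∀ k, Field (F k)] [∀ k, NumberField (F k)]
    [∀ k, Algebra K (F k)] (hker : ∀ k ∈ S, ∀ u ∈ U, act K (F k) u = 1) (τ : ℝ)
    (X : κ → ℝ → ℝ) (hX : ∀ k ∈ S, 𝒮.IsSize (F := F k) (fun _ => 1) τ (X k)) (c : κ → ℝ)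
    {η : ℝ} (hη : 0 < η) :
    ∀ᶠ ε : ℝ in 𝓝[>] 0, |∑ k ∈ S, c k * X k ε| ≤ (∑ j ∈ 𝒮.P, 𝒮.b j) *
      (kap τ * avR U fun q => |∑ k ∈ S, c k * (fixn K (F k) q.out : ℝ)|) + η := by
  classical
  choose σ hσ using exists_isFrob (F := K)
  set N : ℝ := ∑ j ∈ 𝒮.P, 𝒮.b j with hN
  have hN0 : 0 ≤ N := Finset.sum_nonneg fun j hj => 𝒮.hb j hj
  set B : κ → ℝ := fun k => (Module.finrank ℚ (F k) : ℝ) with hB
  have hBk : ∀ k ∈ S, ∀ v, |(fixn K (F k) (σ v) : ℝ) * cz τ v| ≤ B k := by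
    intro k _ v
    rw [abs_mul, abs_of_nonneg (Nat.cast_nonneg _)]
    calc (fixn K (F k) (σ v) : ℝ) * |cz τ v| ≤ B k * 1 :=
          mul_le_mul (fixn_le _) (abs_cz _ _) (abs_nonneg _) (by positivity)
      _ = B k := mul_one _
  have h1 := SzH.sum S (fun k hk => size_fix 𝒮 hreal σ hσ (hX k hk)) (abs_TT 𝒮) hBk c
  set ψ : GK K → ℝ := fun g => ∑ k ∈ S, c k * (fixn K (F k) g : ℝ) with hψ
  have hlim := real_mean U hU ψ (by
      intro g u hu
      rw [hψ]
      exact Finset.sum_congr rfl fun k hk => by rw [fixn_mul_ker _ _ _ _ (hker k hk u hu)]) (by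
      intro g ρ
      rw [hψ]
      exact Finset.sum_congr rfl fun k _ => by rw [fixn_conj]) (by
      intro g
      rw [hψ]
      exact Finset.sum_congr rfl fun k _ => by rw [fixn_inv]) σ hσ τ
  refine size_le hN0 (abs_TT 𝒮) (B := ∑ k ∈ S, |c k| * B k) ?_ h1 ?_ hη
  · intro v
    refine (Finset.abs_sum_le_sum_abs _ _).trans (Finset.sum_le_sum fun k hk => ?_)
    rw [abs_mul]
    exact mul_le_mul_of_nonneg_left (hBk k hk v) (abs_nonneg _)
  · intro η' hη'
    refine (hlim.eventually_lt_const (lt_add_of_pos_right _ hη')).mono fun ε hε => ?_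
    refine le_trans (le_of_eq ?_) hε.le
    congr 2
    funext v
    congr 1
    rw [hψ]
    simp only
    rw [Finset.sum_mul]
    exact Finset.sum_congr rfl fun k _ => by ring

/-- mean values over the quotient by a kernel -/
theorem avR_ker {H : Type*} [Group H] (Φ : GK K →* H) (G : H → ℝ) :
    avR Φ.ker (fun q => G (Φ q.out)) = (Nat.card Φ.range : ℝ)⁻¹ * ∑ᶠ h : Φ.range, G h := by
  unfold avR
  have e := QuotientGroup.quotientKerEquivRange Φ
  rw [Nat.card_congr (QuotientGroup.quotientKerEquivRange Φ).toEquiv]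
  congr 1
  refine finsum_eq_of_bijective (QuotientGroup.quotientKerEquivRange Φ)
    (QuotientGroup.quotientKerEquivRange Φ).bijective fun q => ?_
  congr 1
  conv_rhs => rw [← QuotientGroup.out_eq' q]
  rfl

end

end Pool.Agent.W353.NF
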