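import Pool.Agent.H26.Lib.R_seed8.W353.NF.Burn

/-! Comparison of the sizes over `F` and over `K`. -/

set_option autoImplicit false

namespace Pool.Agent.W353.NF

open Complex Filter Topology ComplexConjugate NumberField IsDedekindDomain Asymptotics
  Pool.Agent.W401.Cheb Pool.Agent.W540.BE Pool.Agent.W353.L1
open Pool.Agent.W353.TP (HX sysH LL)
open Pool.Agent.W353.AB (Sy)
open Pool.Agent.H341R2 (lam)

section
variable (K : Type) [Field K] [NumberField K]

theorem fixn_self (σ : GK K) : fixn K K σ = 1 := by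
  unfold fixn
  have h1 : ∀ i j : K →ₐ[K] AlgebraicClosure K, i = j := fun i j => Subsingleton.elim i j
  have : Unique {i : K →ₐ[K] AlgebraicClosure K // act K K σ i = i} :=
    { default := ⟨Algebra.ofId K _, h1 _ _⟩
      uniq := fun a => Subtype.ext (h1 _ _) }
  exact Nat.card_unique

variable (F : Type) [Field F] [NumberField F] [Algebra K F]

/-- the proportion of the derangements -/
noncomputable def drg : ℝ :=
  (Nat.card {g : (act K F).range // ∀ i, g.1 i ≠ i} : ℝ) / Nat.card (act K F).range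

theorem mean_drg : avR (act K F).ker (fun q => |(fixn K F q.out : ℝ) - 1|) = 2 * drg K F := by
  have h1 := avR_ker (act K F) fun π => |((Nat.card {y // π y = y} : ℕ) : ℝ) - 1|
  have h2 : (fun q : GK K ⧸ (act K F).ker => |(fixn K F q.out : ℝ) - 1|) = fun q =>
      |((Nat.card {y // act K F q.out y = y} : ℕ) : ℝ) - 1| := rfl
  rw [h2, h1]
  have h3 := mean_fix_sub (G := (act K F).range) (Y := F →ₐ[K] AlgebraicClosure K)
    (act K F).range.subtype (fun i j => by
      obtain ⟨σ, hσ⟩ := act_trans K F i j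
      exact ⟨⟨act K F σ, ⟨σ, rfl⟩⟩, hσ⟩)
  exact h3

theorem drg_nonneg : 0 ≤ drg K F := by
  unfold drg
  positivity

/-- the proportion of the derangements if all permutations occur -/
theorem drg_le (hs : Function.Surjective (act K F)) (hn : 3 ≤ Module.finrank K F) :
    drg K F ≤ 3 / 8 := by
  have h1 : Nat.card (F →ₐ[K] AlgebraicClosure K) = Module.finrank K F := by
    rw [Nat.card_eq_fintype_card]
    exact AlgHom.card K F (AlgebraicClosure K)
  refine derangement_prop (G := (act K F).range) (Y := F →ₐ[K] AlgebraicClosure K)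
    (act K F).range.subtype (fun π => ?_) (by rw [h1]; exact hn)
  obtain ⟨σ, hσ⟩ := hs π
  exact ⟨⟨act K F σ, ⟨σ, rfl⟩⟩, hσ⟩

variable {K F}

/-- **Comparison of the sizes over `F` and over `K`.** -/
theorem ineq2 (𝒮 : Sy K) (hreal : ∀ j ∈ 𝒮.P, ∀ x, (𝒮.T j x).im = 0) (τ : ℝ)
    (X₀ X : ℝ → ℝ) (hX₀ : 𝒮.IsSize (F := K) (fun _ => 1) τ X₀)
    (hX : 𝒮.IsSize (F := F) (fun _ => 1) τ X) {η : ℝ} (hη : 0 < η) :
    ∀ᶠ ε : ℝ in 𝓝[>] 0, |X ε - X₀ ε| ≤ (∑ j ∈ 𝒮.P, 𝒮.b j) * (kap τ * (2 * drg K F)) + η := by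
  classical
  choose σ hσ using exists_isFrob (F := K)
  have hopen := ker_act_open K F
  have hfin : Finite (GK K ⧸ (act K F).ker) := Subgroup.quotient_finite_of_isOpen _ hopen
  set N : ℝ := ∑ j ∈ 𝒮.P, 𝒮.b j with hN
  have hN0 : 0 ≤ N := Finset.sum_nonneg fun j hj => 𝒮.hb j hj
  have h1 := size_fix 𝒮 hreal σ hσ hX
  have h2 := size_fix 𝒮 hreal σ hσ hX₀
  have hb1 : ∀ v, |(fixn K F (σ v) : ℝ) * cz τ v| ≤ Module.finrank ℚ F := by
    intro v
    rw [abs_mul, abs_of_nonneg (Nat.cast_nonneg _)]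
    calc (fixn K F (σ v) : ℝ) * |cz τ v| ≤ Module.finrank ℚ F * 1 :=
          mul_le_mul (fixn_le _) (abs_cz _ _) (abs_nonneg _) (by positivity)
      _ = _ := mul_one _
  have hb2 : ∀ v, |(-1 : ℝ) * ((fixn K K (σ v) : ℝ) * cz τ v)| ≤ 1 := by
    intro v
    rw [fixn_self, abs_mul, abs_neg, abs_one, one_mul, Nat.cast_one, one_mul]
    exact abs_cz _ _
  have h3 := (h1.add (h2.const_mul (-1)) (abs_TT 𝒮) hb1 hb2).congr
    (Ψ' := fun v => ((fixn K F (σ v) : ℝ) - 1) * cz τ v) (X' := fun ε => X ε - X₀ ε)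
    (fun v => by rw [fixn_self]; push_cast; ring) (fun ε => by ring)
  have hlim := real_mean (act K F).ker hopen (fun g => (fixn K F g : ℝ) - 1) (by
      intro g u hu
      rw [fixn_mul_ker K F g u hu]) (by
      intro g ρ
      rw [fixn_conj]) (by
      intro g
      rw [fixn_inv]) σ hσ τ
  rw [mean_drg] at hlim
  refine size_le hN0 (abs_TT 𝒮) (B := (Module.finrank ℚ F : ℝ) + 1) ?_ h3 ?_ hη
  · intro v
    have h4 : |((fixn K F (σ v) : ℝ) - 1) * cz τ v| ≤
        |(fixn K F (σ v) : ℝ) * cz τ v| + |cz τ v| := by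
      rw [sub_mul, one_mul]
      exact abs_sub _ _
    exact h4.trans (add_le_add (hb1 v) (abs_cz _ _))
  · intro η' hη'
    exact (hlim.eventually_lt_const (lt_add_of_pos_right _ hη')).mono fun ε hε => hε.le

end

end Pool.Agent.W353.NF
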