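import Pool.Agent.H26.Lib.R_seed8.W353.NF.Pair

/-! Derangements of the embeddings of radical extensions. -/

set_option autoImplicit false

namespace Pool.Agent.W353.NF

open NumberField Pool.Agent.W401.Cheb Pool.Agent.W540.BE Pool.Agent.W353.L1 IntermediateField
  Polynomial

section
variable (K F : Type) [Field K] [NumberField K] [Field F] [NumberField F] [Algebra K F]

/-- derangements in a subgroup -/
theorem drg_le_index (S : Subgroup (GK K)) (hker : (act K F).ker ≤ S)
    (hd : ∀ σ, (∀ i, act K F σ i ≠ i) → σ ∈ S) : drg K F ≤ 1 / S.index := by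
  have h1 : (act K F).ker.relIndex S * S.index = (act K F).ker.index :=
    Subgroup.relIndex_mul_index hker
  rw [Subgroup.relIndex_ker, Subgroup.index_ker] at h1
  have hpos : 0 < Nat.card (act K F).range := Nat.card_pos
  have hS : 0 < S.index := by
    rcases Nat.eq_zero_or_pos S.index with h | h
    · rw [h, mul_zero] at h1
      omega
    · exact h
  have h2 : Nat.card {g : (act K F).range // ∀ i, g.1 i ≠ i} ≤ Nat.card (S.map (act K F)) := by
    refine Nat.card_le_card_of_injective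
      (fun g => (⟨g.1.1, ?_⟩ : S.map (act K F))) ?_
    · obtain ⟨⟨g, σ, rfl⟩, hg⟩ := g
      exact ⟨σ, hd σ hg, rfl⟩
    · intro g g' h
      have := congrArg Subtype.val h
      exact Subtype.ext (Subtype.ext this)
  unfold drg
  rw [div_le_div_iff₀ (by exact_mod_cast hpos) (by exact_mod_cast hS), one_mul]
  rw [← h1]
  push_cast
  exact mul_le_mul_of_nonneg_right (by exact_mod_cast h2) (Nat.cast_nonneg _)

end

section
variable {K : Type} [Field K] [NumberField K]

theorem minpoly_rad {p : ℕ} (hp : p.Prime) {α : AlgebraicClosure K} {a : K}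
    (hα : α ^ p = algebraMap K _ a) (hdeg : Module.finrank K K⟮α⟯ = p) :
    minpoly K α = X ^ p - C a := by
  have hint : IsIntegral K α := Algebra.IsIntegral.isIntegral α
  have hm : (X ^ p - C a : K[X]).Monic := monic_X_pow_sub_C a hp.ne_zero
  symm
  refine eq_of_monic_of_dvd_of_natDegree_le (minpoly.monic hint) hm (minpoly.dvd K α ?_) ?_
  · simp [hα]
  · rw [natDegree_X_pow_sub_C, ← IntermediateField.adjoin.finrank hint, hdeg]

theorem exists_emb_root {p : ℕ} (hp : p.Prime) {ζ : AlgebraicClosure K} (hζ : IsPrimitiveRoot ζ p)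
    {α : AlgebraicClosure K} {a : K} (hα : α ^ p = algebraMap K _ a)
    (hdeg : Module.finrank K K⟮α⟯ = p) (j : ℕ) :
    ∃ i : K⟮α⟯ →ₐ[K] AlgebraicClosure K, i (AdjoinSimple.gen K α) = ζ ^ j * α := by
  have hint : IsIntegral K α := Algebra.IsIntegral.isIntegral α
  have hmin := minpoly_rad hp hα hdeg
  have hroot : ζ ^ j * α ∈ (minpoly K α).aroots (AlgebraicClosure K) := by
    rw [mem_aroots, hmin]
    refine ⟨(monic_X_pow_sub_C a hp.ne_zero).ne_zero, ?_⟩
    rw [map_sub, map_pow, aeval_X, aeval_C, mul_pow, ← pow_mul, mul_comm j p, pow_mul,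
      hζ.pow_eq_one, one_pow, one_mul, hα, sub_self]
  exact ⟨(algHomAdjoinIntegralEquiv K hint).symm ⟨_, hroot⟩,
    algHomAdjoinIntegralEquiv_symm_apply_gen K hint _⟩

theorem alpha_ne {p : ℕ} (hp : p.Prime) {α : AlgebraicClosure K}
    (hdeg : Module.finrank K K⟮α⟯ = p) : α ≠ 0 := by
  intro h
  rw [h, IntermediateField.adjoin_zero, IntermediateField.finrank_bot] at hdeg
  exact hp.ne_one hdeg.symm

/-- automorphisms moving the roots of unity have a fixed embedding -/
theorem exists_fixed {p : ℕ} (hp : p.Prime) {ζ : AlgebraicClosure K} (hζ : IsPrimitiveRoot ζ p)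
    {α : AlgebraicClosure K} {a : K} (hα : α ^ p = algebraMap K _ a)
    (hdeg : Module.finrank K K⟮α⟯ = p) [NumberField K⟮α⟯] (σ : GK K) (hσ : σ ζ ≠ ζ) :
    ∃ i : K⟮α⟯ →ₐ[K] AlgebraicClosure K, act K K⟮α⟯ σ i = i := by
  have : Fact p.Prime := ⟨hp⟩
  have : NeZero p := ⟨hp.ne_zero⟩
  have hα0 := alpha_ne hp hdeg
  obtain ⟨b, -, hb⟩ := hζ.eq_pow_of_pow_eq_one (ξ := σ α / α) (by
    rw [div_pow, ← map_pow, hα, AlgEquiv.commutes, div_self]
    rw [← hα]
    exact pow_ne_zero _ hα0)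
  obtain ⟨h, -, hh⟩ := hζ.eq_pow_of_pow_eq_one (ξ := σ ζ) (by
    rw [← map_pow, hζ.pow_eq_one, map_one])
  have hσα : σ α = ζ ^ b * α := by
    rw [hb, div_mul_cancel₀ _ hα0]
  have hmod : ∀ x y : ℕ, (x : ZMod p) = y → ζ ^ x = ζ ^ y := by
    intro x y hxy
    have h1 : x % p = y % p := (ZMod.natCast_eq_natCast_iff x y p).1 hxy
    rw [← pow_mod_orderOf ζ x, ← pow_mod_orderOf ζ y, ← hζ.eq_orderOf, h1]
  have hh1 : (h : ZMod p) - 1 ≠ 0 := by
    intro h0
    apply hσ
    rw [← hh]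
    have := hmod h 1 (by rw [sub_eq_zero] at h0; rw [h0, Nat.cast_one])
    rw [this, pow_one]
  set j : ℕ := (-(b : ZMod p) / ((h : ZMod p) - 1)).val with hj
  have hjc : ((h * j + b : ℕ) : ZMod p) = (j : ZMod p) := by
    push_cast
    rw [hj, ZMod.natCast_zmod_val]
    field_simp
    ring
  have hfix : σ (ζ ^ j * α) = ζ ^ j * α := by
    rw [map_mul, map_pow, ← hh, hσα, ← mul_assoc, ← pow_mul, ← pow_add, hmod _ _ hjc]
  obtain ⟨i, hi⟩ := exists_emb_root hp hζ hα hdeg j
  refine ⟨i, ?_⟩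
  rw [act_apply]
  refine IntermediateField.adjoin_algHom_ext K ?_
  intro x hx
  have hx' : x = α := hx
  subst hx'
  have h1 : i (AdjoinSimple.gen K x) = ζ ^ j * x := hi
  change σ (i (AdjoinSimple.gen K x)) = i (AdjoinSimple.gen K x)
  rw [h1, hfix]

/-- **The proportion of the derangements for radical extensions.** -/
theorem drg_rad {p : ℕ} (hp : p.Prime) {ζ : AlgebraicClosure K} (hζ : IsPrimitiveRoot ζ p)
    {α : AlgebraicClosure K} {a : K} (hα : α ^ p = algebraMap K _ a)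
    (hdeg : Module.finrank K K⟮α⟯ = p) [NumberField K⟮α⟯] :
    drg K K⟮α⟯ ≤ 1 / Module.finrank K K⟮ζ⟯ := by
  rw [IntermediateField.finrank_eq_fixingSubgroup_index]
  have hfix : ∀ σ : GK K, σ ζ = ζ → σ ∈ (K⟮ζ⟯).fixingSubgroup := by
    intro σ hσ
    rw [IntermediateField.mem_fixingSubgroup_iff]
    intro x hx
    have h1 : (σ : AlgebraicClosure K →ₐ[K] AlgebraicClosure K).comp (K⟮ζ⟯).val =
        (K⟮ζ⟯).val := by
      refine IntermediateField.adjoin_algHom_ext K ?_
      intro y hy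
      have hy' : y = ζ := hy
      subst hy'
      exact hσ
    exact DFunLike.congr_fun h1 ⟨x, hx⟩
  refine drg_le_index K K⟮α⟯ _ ?_ ?_
  · intro σ hσ
    refine hfix σ ?_
    have h1 : ∀ i : K⟮α⟯ →ₐ[K] AlgebraicClosure K, ∀ x, σ (i x) = i x := by
      intro i x
      have h2 : act K K⟮α⟯ σ i = i := by
        rw [(MonoidHom.mem_ker).1 hσ]
        rfl
      rw [act_apply] at h2
      exact DFunLike.congr_fun h2 x
    obtain ⟨i₀, h3⟩ := exists_emb_root hp hζ hα hdeg 0
    obtain ⟨i₁, h4⟩ := exists_emb_root hp hζ hα hdeg 1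
    have h5 := h1 i₀ (AdjoinSimple.gen K α)
    have h6 := h1 i₁ (AdjoinSimple.gen K α)
    rw [h3, pow_zero, one_mul] at h5
    rw [h4, pow_one, map_mul, h5] at h6
    exact mul_right_cancel₀ (alpha_ne hp hdeg) h6
  · intro σ hσ
    refine hfix σ ?_
    by_contra hne
    obtain ⟨i, hi⟩ := exists_fixed hp hζ hα hdeg σ hne
    exact hσ i hi

end

end Pool.Agent.W353.NF
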